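import Pool.Agent.N287.ZM.FIG
import Pool.Agent.H673R5.Ort

/-!
# MP_d483fb_an: orthogonal groups of lattices with pairwise orthogonal roots

`R` is a commutative ring with `4 ≠ 0` and `Q` a bilinear form over `R` (a square matrix) which has `l` pairwise
orthogonal roots: vectors `v` for which the reflection `x ↦ x - f (x) v` is defined over `R` and preserves `Q`. The group
`O(Q)` of the matrices over `R` preserving `Q` then contains an elementary abelian group of order `2 ^ l`. The forms need not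
be diagonal over `R`: examples are all orthogonal sums of multiples of the form `E₈` and of the hyperbolic plane
`U = (0, 1; 1, 0)`, over every ring; over the integers these are (up to sign) all indefinite even unimodular lattices
`II_{p, q}` with `p ≠ q`.

For `R = ℤ` and `l = p + q` the range `m < l - 2` is the whole range `m < min (d(G), v(G)) = p + q - 2` of Zimmer's
conjecture for `G = SO(p, q)`, whereas `r(G) = 2 min (p, q) - 1` for `p ≠ q`.
-/

set_option autoImplicit false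

namespace Pool.Agent.Results.MP_d483fb_an.OrthogonalRoots

open scoped Manifold ContDiff
open Pool.Agent.H185.ZM Pool.Agent.N287.ZM Pool.Agent.H673R5.Ort Module Matrix

variable {E : Type} [NormedAddCommGroup E] [NormedSpace ℝ E] [FiniteDimensional ℝ E]
  {M : Type} [TopologicalSpace M] [ChartedSpace E M] [IsManifold 𝓘(ℝ, E) ∞ M]

/-- `2 ^ l` does not divide `2 ^ (m + 1) * χ * N` -/
def Cond (l m N : ℕ) (χ : ℤ) : Prop := ¬ ((2 : ℤ) ^ l ∣ 2 ^ (m + 1) * χ * N)

/-- Every normal subgroup of `Γ'` consists of scalar matrices or has finite index. -/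
def NSO {R : Type} [CommRing R] {ι : Type} [Fintype ι] [DecidableEq ι] {Q : Matrix ι ι R}
    (Γ' : Subgroup (OG Q)) : Prop :=
  ∀ N : Subgroup Γ', N.Normal →
    (∀ g ∈ N, ∃ c : R, (((g : OG Q) : (Matrix ι ι R)ˣ) : Matrix ι ι R) = c • 1) ∨ Finite (Γ' ⧸ N)

/-- The kernel of `α` contains an element which is not scalar and conjugate in `O(Q)` to a product of reflections in the
given roots, and the image is finite under property `(NSO)`. -/
def Conclusion {R : Type} [CommRing R] {ι κ : Type} [Fintype ι] [DecidableEq ι] [Fintype κ]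
    [DecidableEq κ] {Q : Matrix ι ι R} (V : Matrix ι κ R) (F : Matrix κ ι R) {Γ' : Subgroup (OG Q)}
    (α : Γ' → (M ≃ₘ^∞⟮𝓘(ℝ, E), 𝓘(ℝ, E)⟯ M)) : Prop :=
  (∃ (g : Γ') (γ : OG Q) (x : κ → Multiplicative (ZMod 2)), (∀ y, α g y = y) ∧
    (((γ * (g : OG Q) * γ⁻¹ : OG Q) : (Matrix ι ι R)ˣ) : Matrix ι ι R) = Dx V F x ∧
    ∀ c : R, Dx V F x ≠ c • 1) ∧
  (NSO Γ' → (Set.range α).Finite)

theorem main [CompactSpace M] [T2Space M] [ConnectedSpace M] {R : Type} [CommRing R]
    (h4 : (4 : R) ≠ 0) {ι κ : Type} [Fintype ι] [DecidableEq ι] [Fintype κ] [DecidableEq κ]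
    {Q : Matrix ι ι R} {V : Matrix ι κ R} {F : Matrix κ ι R} {q : κ → R} (hQ : HasRoots κ Q V F q)
    (Γ' : Subgroup (OG Q)) [Finite (OG Q ⧸ Γ')] (α : Γ' → (M ≃ₘ^∞⟮𝓘(ℝ, E), 𝓘(ℝ, E)⟯ M))
    (hα : IsHom α)
    (h : Cond (Fintype.card κ) (finrank ℝ E) Γ'.index (Pool.Agent.Helper381.eulerChar M)) :
    Conclusion V F α := by
  let φ : (κ → Multiplicative (ZMod 2)) →* OG Q :=
    { toFun := fun x => ⟨dhom V F hQ.1 x, Dx_mem hQ x⟩
      map_one' := Subtype.ext (map_one _)
      map_mul' := fun p q => Subtype.ext (map_mul _ p q) }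
  have hcoe : ∀ x, (((φ x : OG Q) : (Matrix ι ι R)ˣ) : Matrix ι ι R) = Dx V F x := fun _ => rfl
  have hcard : Nat.card (κ → Multiplicative (ZMod 2)) = 2 ^ Fintype.card κ := by
    rw [Nat.card_fun]
    simp
  obtain ⟨x, γ, hx, hne, hker⟩ := fi_four_gen Γ' (fun p => by
      funext j
      have : ∀ u : Multiplicative (ZMod 2), u ^ 4 = 1 := by decide
      exact this _) φ (fun x => ∃ c : R, Dx V F x = c • 1) 2 (card_dvd h4 hQ.1) hα.action (by
      rw [hcard]
      intro h3
      apply h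
      have e : ((2 : ℕ) : ℤ) * (((2 ^ finrank ℝ E : ℕ) : ℤ) * Pool.Agent.Helper381.eulerChar M) *
          Γ'.index = 2 ^ (finrank ℝ E + 1) * Pool.Agent.Helper381.eulerChar M * Γ'.index := by
        push_cast
        ring
      rw [e] at h3
      exact_mod_cast h3)
  push Not at hne
  have hcj : γ * (γ⁻¹ * φ x * γ) * γ⁻¹ = φ x := by group
  refine ⟨⟨⟨_, hx⟩, γ, x, hker, ?_, hne⟩, fun hNS => ?_⟩
  · show (((γ * (γ⁻¹ * φ x * γ) * γ⁻¹ : OG Q) : (Matrix ι ι R)ˣ) : Matrix ι ι R) = _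
    rw [hcj]
    exact hcoe x
  · apply hα.finite_range
    rcases hNS (actKer hα.action) inferInstance with h1 | h1
    · exfalso
      obtain ⟨c, hc⟩ := h1 _ hker
      have hc' : (((γ⁻¹ * φ x * γ : OG Q) : (Matrix ι ι R)ˣ) : Matrix ι ι R) =
        c • (1 : Matrix ι ι R) := hc
      apply hne c
      have h2 : Dx V F x = (((γ : OG Q) : (Matrix ι ι R)ˣ) : Matrix ι ι R) *
          (((γ⁻¹ * φ x * γ : OG Q) : (Matrix ι ι R)ˣ) : Matrix ι ι R) *
          (((γ⁻¹ : OG Q) : (Matrix ι ι R)ˣ) : Matrix ι ι R) := by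
        rw [← hcoe x, ← Units.val_mul, ← Units.val_mul, ← Subgroup.coe_mul, ← Subgroup.coe_mul, hcj]
      rw [h2, hc', Matrix.mul_smul, Matrix.smul_mul, mul_one, ← Units.val_mul, ← Subgroup.coe_mul,
        mul_inv_cancel]
      rfl
    · exact h1

lemma cond_of {l m N : ℕ} {χ : ℤ} (h : ¬ (4 : ℤ) ∣ χ * N) (hm : m + 2 < l) : Cond l m N χ := by
  intro h1
  apply h
  obtain ⟨d, hd⟩ : ∃ d, l = (m + 1) + 2 + d := ⟨l - (m + 3), by omega⟩
  have h2 : (2 : ℤ) ^ (m + 1) * 4 ∣ 2 ^ (m + 1) * (χ * N) := by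
    rw [← mul_assoc]
    refine dvd_trans ?_ h1
    rw [hd, pow_add, pow_add]
    exact ⟨2 ^ d, by ring⟩
  exact (mul_dvd_mul_iff_left (by positivity)).1 h2

/-- the form which is the orthogonal sum of the multiples `c i` of `E₈` and the multiples `d j` of the hyperbolic plane -/
def EU {R : Type} [CommRing R] {a b : ℕ} (c : Fin a → R) (d : Fin b → R) :
    Matrix ((Fin 8 × Fin a) ⊕ (Fin 2 × Fin b)) ((Fin 8 × Fin a) ⊕ (Fin 2 × Fin b)) R :=
  fromBlocks (blockDiagonal fun i => c i • cm R E8) 0 0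
    (blockDiagonal fun j => d j • (!![0, 1; 1, 0] : Matrix (Fin 2) (Fin 2) R))

variable (E M) in
/-- Statement (1) for the form `Q` and the roots. -/
def Stat {R : Type} [CommRing R] {ι κ : Type} [Fintype ι] [DecidableEq ι] [Fintype κ] [DecidableEq κ]
    (Q : Matrix ι ι R) (V : Matrix ι κ R) (F : Matrix κ ι R) : Prop :=
  ∀ Γ' : Subgroup (OG Q), Finite (OG Q ⧸ Γ') → ∀ α : Γ' → (M ≃ₘ^∞⟮𝓘(ℝ, E), 𝓘(ℝ, E)⟯ M), IsHom α →
    Cond (Fintype.card κ) (finrank ℝ E) Γ'.index (Pool.Agent.Helper381.eulerChar M) →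
      Conclusion V F α

/-- **Theorem.** `M` is a closed connected smooth manifold of dimension `m`.
(1) Let `R` be a commutative ring with `4 ≠ 0`, `Q` a bilinear form over `R` with `l` pairwise orthogonal roots, `Γ'` a
subgroup of finite index `N` of `O(Q)`, and `α : Γ' → Diff(M)` a homomorphism. If `2 ^ l` does not divide
`2 ^ (m + 1) χ(M) N` then the kernel of `α` contains a non scalar matrix conjugate to a product of reflections in the roots,
and `α` has finite image if all normal subgroups of `Γ'` are scalar or of finite index.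
(2) The condition holds if `4` does not divide `χ(M) N` and `m < l - 2`.
(3) Orthogonal sums of `a` multiples of `E₈` and `b` multiples of the hyperbolic plane have `8 a + 2 b` pairwise orthogonal
roots, over every ring. -/
theorem result [CompactSpace M] [T2Space M] [ConnectedSpace M] :
    (∀ (R : Type) [CommRing R], (4 : R) ≠ 0 → ∀ (ι κ : Type) [Fintype ι] [DecidableEq ι] [Fintype κ]
      [DecidableEq κ] (Q : Matrix ι ι R) (V : Matrix ι κ R) (F : Matrix κ ι R) (q : κ → R),
      HasRoots κ Q V F q → Stat E M Q V F) ∧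
    (∀ l N : ℕ, ¬ (4 : ℤ) ∣ Pool.Agent.Helper381.eulerChar M * N → finrank ℝ E + 2 < l →
      Cond l (finrank ℝ E) N (Pool.Agent.Helper381.eulerChar M)) ∧
    (∀ (R : Type) [CommRing R] (a b : ℕ) (c : Fin a → R) (d : Fin b → R),
      HasSome ((Fin 8 × Fin a) ⊕ (Fin 2 × Fin b)) (EU c d)) :=
  ⟨fun _ _ h4 _ _ _ _ _ _ _ _ _ _ hQ Γ' _ α hα h => main h4 hQ Γ' α hα h,
    fun _ _ h hm => cond_of h hm,
    fun _ _ _ _ c d => ⟨_, _, _, roots_sum (roots_block roots_E8 c) (roots_block roots_U d)⟩⟩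

end Pool.Agent.Results.MP_d483fb_an.OrthogonalRoots
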